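import Pool.Agent.H85.AK.Stmt3

/-!
Sharpness for finitely generated groups of algebraic numbers (problem MP_cc0731_co, project AK of
helper85; this file: helper155).
-/

set_option autoImplicit false

namespace Pool.Agent.H85.AK

open scoped Pointwise
open Finset

namespace Group155

section hom

variable {M G : Type} [AddCommGroup M] [CommGroup G] {g : M → G}

lemma g_nsmul (h0 : g 0 = 1) (ha : ∀ m n, g (m + n) = g m * g n) (n : ℕ) (m : M) :
    g (n • m) = g m ^ n := by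
  induction n with
  | zero => rw [zero_smul, h0, pow_zero]
  | succ n ih => rw [succ_nsmul, ha, ih, pow_succ]

lemma g_sum (h0 : g 0 = 1) (ha : ∀ m n, g (m + n) = g m * g n) {ι : Type} (s : Finset ι)
    (f : ι → M) : g (∑ i ∈ s, f i) = ∏ i ∈ s, g (f i) := by
  classical
  induction s using Finset.induction_on with
  | empty => rw [sum_empty, prod_empty, h0]
  | insert i s hi ih => rw [sum_insert hi, prod_insert hi, ha, ih]

/-- different exponents give different products -/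
lemma prod_inj [Module.Free ℤ M] [Module.Finite ℤ M] (h0 : g 0 = 1)
    (ha : ∀ m n, g (m + n) = g m * g n) (hinj : Function.Injective g) {k : ℕ}
    (b : Module.Basis (Fin k) ℤ M) (e e' : Fin k → ℕ)
    (h : ∏ i, g (b i) ^ e i = ∏ i, g (b i) ^ e' i) : e = e' := by
  have h1 : ∀ e : Fin k → ℕ, ∏ i, g (b i) ^ e i = g (∑ i, (e i : ℤ) • b i) := by
    intro e
    rw [g_sum h0 ha]
    refine prod_congr rfl fun i _ => ?_
    rw [natCast_zsmul, g_nsmul h0 ha]
  rw [h1, h1] at h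
  have h2 := hinj h
  have h3 : ∀ e : Fin k → ℕ, ∀ i, b.repr (∑ i, (e i : ℤ) • b i) i = (e i : ℤ) := by
    intro e i
    rw [b.repr_sum_self]
  funext i
  have h4 := h3 e i
  rw [h2, h3 e' i] at h4
  exact_mod_cast h4.symm

end hom

/-- the exponents -/
def ex {k : ℕ} (i0 : Fin k) (T : ℕ) (a : Fin k → ℕ) (j : ℕ) (i : Fin k) : ℕ :=
  a i + if i = i0 then j * T else 0

lemma ex_inj {k : ℕ} (i0 : Fin k) {T : ℕ} {a a' : Fin k → ℕ} {j j' : ℕ} (ha : ∀ i, a i < T)
    (ha' : ∀ i, a' i < T) (h : ex i0 T a j = ex i0 T a' j') : a = a' ∧ j = j' := by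
  have h0 := congrFun h i0
  unfold ex at h0
  rw [if_pos rfl, if_pos rfl] at h0
  have hT : 0 < T := (Nat.zero_le _).trans_lt (ha i0)
  have h1 : (a i0 + j * T) / T = j := by
    rw [Nat.add_mul_div_right _ _ hT, Nat.div_eq_of_lt (ha i0), zero_add]
  have h2 : (a' i0 + j' * T) / T = j' := by
    rw [Nat.add_mul_div_right _ _ hT, Nat.div_eq_of_lt (ha' i0), zero_add]
  have hj : j = j' := by rw [← h1, h0, h2]
  refine ⟨?_, hj⟩
  funext i
  have h3 := congrFun h i
  unfold ex at h3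
  rw [hj] at h3
  exact Nat.add_right_cancel h3

lemma prod_ex {k : ℕ} {R : Type} [CommMonoid R] (x : Fin k → R) (i0 : Fin k) (T : ℕ)
    (a : Fin k → ℕ) (j : ℕ) :
    ∏ i, x i ^ ex i0 T a j i = (∏ i, x i ^ a i) * x i0 ^ (j * T) := by
  unfold ex
  simp only [pow_add]
  rw [prod_mul_distrib]
  congr 1
  rw [prod_eq_single i0]
  · rw [if_pos rfl]
  · intro i _ hi
    rw [if_neg hi, pow_zero]
  · intro h
    exact absurd (mem_univ _) h

end Group155

open Group155 in
/-- **S_group.** -/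
theorem s_group (h1 : Stmt3.S_box) (h2 : Stmt2.S_split) : Stmt3.S_group := by
  classical
  intro Γ hFG halg hρ ε hε
  have hfg : Group.FG Γ := (Group.fg_iff_subgroup_fg Γ).2 hFG
  obtain ⟨M, iM1, iM2, iM3, g, -, hrank, g0, ga, ginj, -⟩ := h2 Γ
  rw [← hrank] at hρ ⊢
  set ρ : ℕ := Module.finrank ℤ M with hρdef
  let b : Module.Basis (Fin ρ) ℤ M := Module.finBasis ℤ M
  let y : Fin ρ → Γ := fun i => g (b i)
  let x : Fin ρ → ℂ := fun i => ((y i : ℂˣ) : ℂ)
  let i0 : Fin ρ := ⟨0, hρ⟩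
  have hx0 : ∀ i, x i ≠ 0 := fun i => Units.ne_zero _
  have hinf : ∀ n : ℕ, 0 < n → x i0 ^ n ≠ 1 := by
    intro n hn h
    have e1 : (y i0) ^ n = 1 := by
      apply Subtype.ext
      apply Units.ext
      rw [Subgroup.coe_pow, Units.val_pow_eq_pow_val]
      exact h
    have e2 : ∏ i, g (b i) ^ (Pi.single i0 n : Fin ρ → ℕ) i = ∏ i, g (b i) ^ (0 : Fin ρ → ℕ) i := by
      have e3 : ∏ i, g (b i) ^ (0 : Fin ρ → ℕ) i = 1 := by
        simp
      rw [e3, prod_eq_single i0]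
      · rw [Pi.single_eq_same]
        exact e1
      · intro i _ hi
        rw [Pi.single_eq_of_ne hi, pow_zero]
      · intro hh
        exact absurd (mem_univ _) hh
    have e4 := congrFun (prod_inj g0 ga ginj b _ _ e2) i0
    rw [Pi.single_eq_same, Pi.zero_apply] at e4
    omega
  obtain ⟨c₀, hc₀, hbox⟩ := h1 ρ x hx0 (fun i => halg _ (y i).2) ⟨i0, hinf⟩ ε hε
  have hρR : (0 : ℝ) < ρ := by exact_mod_cast hρ
  refine ⟨(c₀ / ρ) ^ ρ, by positivity, fun N K hK => ?_⟩
  obtain ⟨A, hA1, hA2, hA3⟩ := hbox N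
  set X : ℝ := c₀ * Real.log A.card with hX
  have hlog : 0 ≤ Real.log (A.card : ℝ) := Real.log_natCast_nonneg _
  have hX0 : 0 ≤ X := by positivity
  set L : ℕ := ⌊X / ρ⌋₊ with hL
  have hLle : (L : ℝ) ≤ X / ρ := Nat.floor_le (by positivity)
  have hLlt : X / ρ < (L : ℝ) + 1 := Nat.lt_floor_add_one _
  set T : ℕ := L + 1 with hT
  let C : Finset ℂ := (range K).biUnion fun j => A.image fun z => (x i0 ^ (j * T))⁻¹ * z
  let rr : (Fin ρ → Fin T) × Fin K → Γ := fun p =>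
    ∏ i, y i ^ ex i0 T (fun i => (p.1 i : ℕ)) p.2 i
  let R : Finset ℂˣ := (univ : Finset ((Fin ρ → Fin T) × Fin K)).image fun p => (rr p : ℂˣ)
  have hCle : C.card ≤ K * A.card := by
    have e1 := card_biUnion_le_card_mul (range K)
      (fun j => A.image fun z => (x i0 ^ (j * T))⁻¹ * z) A.card (fun j _ => card_image_le)
    rw [card_range] at e1
    exact e1
  refine ⟨A, C, R, hA1, hA2, ?_, hCle, ?_, ?_⟩
  · refine card_le_card fun z hz => mem_biUnion.2 ⟨0, mem_range.2 hK, mem_image.2 ⟨z, hz, ?_⟩⟩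
    rw [zero_mul, pow_zero, inv_one, one_mul]
  · intro r hr
    obtain ⟨⟨a, j⟩, -, rfl⟩ := mem_image.1 hr
    refine ⟨(rr (a, j)).2, ?_⟩
    have hrv : ((rr (a, j) : ℂˣ) : ℂ) = (∏ i, x i ^ (a i : ℕ)) * x i0 ^ ((j : ℕ) * T) := by
      have e1 : ((rr (a, j) : ℂˣ) : ℂ) = ∏ i, x i ^ ex i0 T (fun i => (a i : ℕ)) j i := by
        show (((∏ i, y i ^ ex i0 T (fun i => (a i : ℕ)) j i : Γ) : ℂˣ) : ℂ) = _
        rw [Subgroup.val_finset_prod, Units.coe_prod]
        refine prod_congr rfl fun i _ => ?_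
        rw [Subgroup.coe_pow, Units.val_pow_eq_pow_val]
      rw [e1, prod_ex]
    have hsum : ((∑ i, ((a i : ℕ)) : ℕ) : ℝ) ≤ c₀ * Real.log A.card := by
      have e1 : ∑ i, (a i : ℕ) ≤ ρ * L := by
        have e2 : ∀ i ∈ (univ : Finset (Fin ρ)), (a i : ℕ) ≤ L := fun i _ => by
          have := (a i).2
          omega
        have e3 := sum_le_card_nsmul _ _ _ e2
        rw [card_univ, Fintype.card_fin, smul_eq_mul] at e3
        exact e3
      have e4 : ((∑ i, (a i : ℕ) : ℕ) : ℝ) ≤ ((ρ * L : ℕ) : ℝ) := Nat.cast_le.2 e1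
      refine e4.trans ?_
      rw [Nat.cast_mul]
      calc (ρ : ℝ) * L ≤ ρ * (X / ρ) := mul_le_mul_of_nonneg_left hLle hρR.le
        _ = X := by field_simp
    have h3 := hA3 (fun i => (a i : ℕ)) hsum
    have h4 : (A.filter fun z => (∏ i, x i ^ (a i : ℕ)) * z ∈ A).card ≤
        (C.filter fun z => ((rr (a, j) : ℂˣ) : ℂ) * z ∈ A).card := by
      have hp0 : (x i0 ^ ((j : ℕ) * T))⁻¹ ≠ 0 := inv_ne_zero (pow_ne_zero _ (hx0 i0))
      refine card_le_card_of_injOn (fun w => (x i0 ^ ((j : ℕ) * T))⁻¹ * w) ?_ ?_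
      · intro w hw
        obtain ⟨hw1, hw2⟩ := mem_filter.1 (mem_coe.1 hw)
        refine mem_coe.2 (mem_filter.2 ⟨mem_biUnion.2 ⟨j, mem_range.2 j.2,
          mem_image.2 ⟨w, hw1, rfl⟩⟩, ?_⟩)
        have e1 : ((rr (a, j) : ℂˣ) : ℂ) * ((x i0 ^ ((j : ℕ) * T))⁻¹ * w) =
            (∏ i, x i ^ (a i : ℕ)) * w := by
          rw [hrv, mul_assoc, mul_inv_cancel_left₀ (pow_ne_zero _ (hx0 i0))]
        show ((rr (a, j) : ℂˣ) : ℂ) * ((x i0 ^ ((j : ℕ) * T))⁻¹ * w) ∈ A
        rw [e1]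
        exact hw2
      · intro w _ w' _ hww
        exact mul_left_cancel₀ hp0 hww
    calc C.card ≤ K * A.card := hCle
      _ ≤ K * (2 * (A.filter fun z => (∏ i, x i ^ (a i : ℕ)) * z ∈ A).card) :=
          Nat.mul_le_mul_left _ h3
      _ ≤ K * (2 * (C.filter fun z => ((rr (a, j) : ℂˣ) : ℂ) * z ∈ A).card) :=
          Nat.mul_le_mul_left _ (Nat.mul_le_mul_left _ h4)
      _ = 2 * K * (C.filter fun z => ((rr (a, j) : ℂˣ) : ℂ) * z ∈ A).card := by ring
  · have hRcard : R.card = T ^ ρ * K := by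
      have e1 : R.card = (univ : Finset ((Fin ρ → Fin T) × Fin K)).card := by
        refine card_image_of_injective _ ?_
        rintro ⟨a, j⟩ ⟨a', j'⟩ hh
        have e2 : rr (a, j) = rr (a', j') := Subtype.ext hh
        have e3 := prod_inj g0 ga ginj b _ _ e2
        obtain ⟨e4, e5⟩ := ex_inj i0 (fun i => (a i).2) (fun i => (a' i).2) e3
        refine Prod.ext ?_ (Fin.ext e5)
        funext i
        exact Fin.ext (congrFun e4 i)
      rw [e1, card_univ, Fintype.card_prod, Fintype.card_fun, Fintype.card_fin, Fintype.card_fin,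
        Fintype.card_fin]
    rw [hRcard]
    push_cast
    have e1 : (c₀ / ρ) ^ ρ * K * Real.log A.card ^ ρ = (X / ρ) ^ ρ * K := by
      have e2 : X / ρ = c₀ / ρ * Real.log A.card := by rw [hX]; ring
      rw [e2, mul_pow]
      ring
    rw [e1]
    refine mul_le_mul_of_nonneg_right ?_ (Nat.cast_nonneg K)
    refine pow_le_pow_left₀ (by positivity) ?_ ρ
    rw [hT]
    push_cast
    exact hLlt.le

end Pool.Agent.H85.AK
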