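import Pool.Agent.H724.DL.Stm

/-!
# DL-TIL: an immortal pair gives a valid array
-/

set_option autoImplicit false

namespace Pool.Agent.H155.DLT

open Pool.Agent.H724.DL

theorem add_mod_of_eq {e a b M r : ℕ} (h : (e + a) % M = r) (hab : b % M = a % M) :
    (e + b) % M = r := by
  rw [← h, Nat.add_mod, hab, ← Nat.add_mod]

theorem til (hs : S_STEP) (hr : S_ROW) : S_TIL := by
  intro Γ W R n X Y hI
  obtain ⟨al, be, N, H⟩ := hs Γ W R n X Y hI
  choose N' hN' using fun m => hr Γ W R n X Y m (al (m + 1)) (be (m + 1)) (N (m + 1)) hI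
    (H (m + 1)).1 (H (m + 1)).2.1
  have hex : ∀ m : ℕ, ∃ i, max (N' m) (N' (m - 1)) ≤ i ∧
      (i + (if Even m then al m else be m)) % 5 ^ (m + 1) = (if Even m then 2 else 3) * 5 ^ m := by
    intro m
    apply exists_ge_mod
    have h5 := pow5_pos m
    rw [pow_succ]
    split_ifs <;> omega
  choose e he1 he2 using hex
  refine ⟨fun m l => if Even m then (X (e m + 5 ^ l)).k else (Y (e m + 5 ^ l)).k, fun m => ?_⟩
  have hm1 : N' m ≤ e m := (le_max_left _ _).trans (he1 m)
  have hm2 : N' m ≤ e (m + 1) := (le_max_right (N' (m + 1)) (N' (m + 1 - 1))).trans (he1 (m + 1))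
  have c1 := he2 m
  have c2 := he2 (m + 1)
  by_cases hm : Even m
  · have hm' : ¬ Even (m + 1) := by
      rw [Nat.even_add_one]; exact not_not.2 hm
    rw [if_pos hm, if_pos hm] at c1
    rw [if_neg hm', if_neg hm'] at c2
    simp only [if_pos hm, if_neg hm']
    exact (hN' m (e m) (e (m + 1)) hm1 hm2).2 c2 (add_mod_of_eq c1 (H m).2.2.1)
  · have hm' : Even (m + 1) := Nat.even_add_one.2 hm
    rw [if_neg hm, if_neg hm] at c1
    rw [if_pos hm', if_pos hm'] at c2
    simp only [if_neg hm, if_pos hm']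
    exact (hN' m (e (m + 1)) (e m) hm2 hm1).1 c2 (add_mod_of_eq c1 (H m).2.2.2)

end Pool.Agent.H155.DLT
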