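import Pool.Agent.H252.EL.Iface

/-!
# Extension of the Bott bundle to a positive contraction over the cube
-/

set_option autoImplicit false

noncomputable section

namespace Pool.Agent.H155.ELELT

open Filter Topology Matrix
open scoped Matrix.Norms.L2Operator ComplexOrder MatrixOrder
open Pool.Agent.H252.EL

lemma sphere_eq (x : S2) : ((x : EuclideanSpace ℝ (Fin 3)) 0) ^ 2 +
    ((x : EuclideanSpace ℝ (Fin 3)) 1) ^ 2 + ((x : EuclideanSpace ℝ (Fin 3)) 2) ^ 2 = 1 := by
  have h1 : ‖(x : EuclideanSpace ℝ (Fin 3))‖ = 1 := by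
    have h2 := x.2
    rwa [mem_sphere_zero_iff_norm] at h2
  have h2 := EuclideanSpace.real_norm_sq_eq (x : EuclideanSpace ℝ (Fin 3))
  rw [h1, Fin.sum_univ_three] at h2
  linarith

lemma bott_herm (x : S2) : (bott x)ᴴ = bott x := by
  unfold bott
  ext i j
  fin_cases i <;> fin_cases j <;> simp [Matrix.conjTranspose_apply] <;> ring

lemma bott_mul (x : S2) : bott x * bott x = bott x := by
  have h := sphere_eq x
  have hc : ((x : EuclideanSpace ℝ (Fin 3)) 0 : ℂ) ^ 2 +
    ((x : EuclideanSpace ℝ (Fin 3)) 1 : ℂ) ^ 2 + ((x : EuclideanSpace ℝ (Fin 3)) 2 : ℂ) ^ 2 = 1 := by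
    have h' := congrArg (fun r : ℝ => (r : ℂ)) h
    push_cast at h'
    exact h'
  have hI := Complex.I_sq
  unfold bott
  generalize ((x : EuclideanSpace ℝ (Fin 3)) 0 : ℂ) = a at hc ⊢
  generalize ((x : EuclideanSpace ℝ (Fin 3)) 1 : ℂ) = b at hc ⊢
  generalize ((x : EuclideanSpace ℝ (Fin 3)) 2 : ℂ) = c at hc ⊢
  ext i j
  fin_cases i <;> fin_cases j <;> simp [Matrix.mul_apply, Fin.sum_univ_two]
  · linear_combination (1 / 4 : ℂ) * hc - (1 / 4) * b ^ 2 * hI
  · ring
  · ring
  · linear_combination (1 / 4 : ℂ) * hc - (1 / 4) * b ^ 2 * hI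

lemma bott_trace (x : S2) : (bott x).trace = 1 := by
  unfold bott
  simp [Matrix.trace, Fin.sum_univ_two]
  ring

lemma continuous_bott : Continuous bott := by
  have h : ∀ i : Fin 3, Continuous (fun x : S2 => ((x : EuclideanSpace ℝ (Fin 3)) i : ℂ)) := by
    intro i
    have h1 : Continuous (fun y : EuclideanSpace ℝ (Fin 3) => y i) := by fun_prop
    exact Complex.continuous_ofReal.comp (h1.comp continuous_subtype_val)
  have h0 := h 0
  have h1 := h 1
  have h2 := h 2
  refine continuous_matrix fun i j => ?_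
  unfold bott
  fin_cases i <;> fin_cases j <;> simp <;> fun_prop

section E

variable {k : ℕ} {J : Type} [Fintype J] [DecidableEq J]

/-- the inclusion -/
def EE (u : Fin k × Fin 2 → J) : Matrix J (Fin 2 × Fin k) ℂ :=
  Matrix.of fun a p => if u (p.2, p.1) = a then 1 else 0

lemma bottE_eq (u : Fin k × Fin 2 → J) (x : Fin k → S2) :
    bottE u x = EE u * Matrix.blockDiagonal (fun t => bott (x t)) * (EE u)ᴴ := by
  ext a b
  have h1 : ∀ (j : Fin 2) (t' : Fin k),
      (EE u * Matrix.blockDiagonal (fun t => bott (x t))) a (j, t') =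
        ∑ i : Fin 2, (if u (t', i) = a then 1 else 0) * bott (x t') i j := by
    intro j t'
    rw [Matrix.mul_apply, Fintype.sum_prod_type]
    refine Finset.sum_congr rfl fun i _ => ?_
    rw [Finset.sum_eq_single t']
    · simp [EE, Matrix.blockDiagonal_apply]
    · intro t _ ht
      simp [Matrix.blockDiagonal_apply, ht]
    · intro h
      exact absurd (Finset.mem_univ _) h
  rw [Matrix.mul_apply, Fintype.sum_prod_type, Finset.sum_comm]
  show ∑ t : Fin k, ∑ i : Fin 2, ∑ j : Fin 2,
    (if u (t, i) = a ∧ u (t, j) = b then bott (x t) i j else 0) = _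
  refine Finset.sum_congr rfl fun t _ => ?_
  rw [Finset.sum_comm]
  refine Finset.sum_congr rfl fun j _ => ?_
  rw [h1, Finset.sum_mul]
  refine Finset.sum_congr rfl fun i _ => ?_
  simp only [EE, Matrix.conjTranspose_apply, Matrix.of_apply]
  by_cases h2 : u (t, i) = a
  · by_cases h3 : u (t, j) = b
    · simp [h2, h3]
    · simp [h2, h3]
  · simp [h2]

lemma EE_mul (u : Fin k × Fin 2 → J) (hu : Function.Injective u) : (EE u)ᴴ * EE u = 1 := by
  ext p q
  rw [Matrix.mul_apply, Matrix.one_apply]
  simp only [EE, Matrix.conjTranspose_apply, Matrix.of_apply]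
  rw [Finset.sum_eq_single (u (p.2, p.1))]
  · by_cases h : p = q
    · rw [h]; simp
    · have h2 : u (q.2, q.1) ≠ u (p.2, p.1) := by
        intro h3
        have h4 := hu h3
        apply h
        ext1
        · exact ((Prod.mk.inj h4).2).symm
        · exact ((Prod.mk.inj h4).1).symm
      simp [h, h2]
  · intro c _ hc
    simp [Ne.symm hc]
  · intro h
    exact absurd (Finset.mem_univ _) h

lemma bottE_herm (u : Fin k × Fin 2 → J) (x : Fin k → S2) : (bottE u x)ᴴ = bottE u x := by
  rw [bottE_eq, Matrix.conjTranspose_mul, Matrix.conjTranspose_mul, Matrix.conjTranspose_conjTranspose,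
    Matrix.blockDiagonal_conjTranspose, Matrix.mul_assoc]
  simp only [bott_herm]

lemma bottE_mul (u : Fin k × Fin 2 → J) (hu : Function.Injective u) (x : Fin k → S2) :
    bottE u x * bottE u x = bottE u x := by
  rw [bottE_eq]
  set D := Matrix.blockDiagonal (fun t => bott (x t)) with hD
  have h1 : D * D = D := by
    rw [hD, ← Matrix.blockDiagonal_mul]
    simp only [bott_mul]
  calc EE u * D * (EE u)ᴴ * (EE u * D * (EE u)ᴴ)
      = EE u * D * ((EE u)ᴴ * EE u) * D * (EE u)ᴴ := by simp only [Matrix.mul_assoc]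
    _ = EE u * (D * D) * (EE u)ᴴ := by rw [EE_mul u hu, Matrix.mul_one, Matrix.mul_assoc (EE u)]
    _ = EE u * D * (EE u)ᴴ := by rw [h1]

lemma bottE_trace (u : Fin k × Fin 2 → J) (hu : Function.Injective u) (x : Fin k → S2) :
    (bottE u x).trace = k := by
  rw [bottE_eq, Matrix.trace_mul_comm, ← Matrix.mul_assoc, EE_mul u hu, Matrix.one_mul,
    Matrix.trace_blockDiagonal]
  simp [bott_trace]

lemma continuous_bottE (u : Fin k × Fin 2 → J) : Continuous (fun x : Fin k → S2 => bottE u x) := by
  simp only [bottE_eq]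
  refine Continuous.matrix_mul (Continuous.matrix_mul continuous_const ?_) continuous_const
  refine Continuous.matrix_blockDiagonal ?_
  exact continuous_pi fun t => continuous_bott.comp (continuous_apply t)

lemma norm_bottE (u : Fin k × Fin 2 → J) (hu : Function.Injective u) (x : Fin k → S2) :
    ‖bottE u x‖ ≤ 1 := by
  have h1 := CStarRing.norm_star_mul_self (x := bottE u x)
  rw [Matrix.star_eq_conjTranspose, bottE_herm, bottE_mul u hu] at h1
  rcases eq_or_ne ‖bottE u x‖ 0 with h | h
  · rw [h]; norm_num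
  · have h2 : ‖bottE u x‖ = 1 := by
      have h3 : ‖bottE u x‖ * 1 = ‖bottE u x‖ * ‖bottE u x‖ := by rw [mul_one]; exact h1
      exact (mul_left_cancel₀ h h3).symm
    exact h2.le

lemma one_sub_psd (M : Matrix J J ℂ) (h : ‖M‖ ≤ 1) : (1 - Mᴴ * M).PosSemidef := by
  have h1 : (0 : Matrix J J ℂ) ≤ star M * M := star_mul_self_nonneg M
  have h2 : ‖star M * M‖ ≤ 1 := by
    rw [CStarRing.norm_star_mul_self]
    exact mul_le_one₀ h (norm_nonneg _) h
  exact (CStarAlgebra.norm_le_one_iff_of_nonneg _ h1).1 h2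

end E

theorem s_ELT : S_ELT := by
  intro hE k d J _ _ u η hkd hu hη
  obtain ⟨ι, hι, hinj⟩ := hE k d hkd
  have he : IsClosedEmbedding ι := hι.isClosedEmbedding hinj
  let f : C(Fin k → S2, Metric.closedBall (0 : Matrix J J ℂ) 1) :=
    ⟨fun x => ⟨bottE u x, by rw [mem_closedBall_zero_iff]; exact norm_bottE u hu x⟩,
      (continuous_bottE u).subtype_mk fun x => by
        rw [mem_closedBall_zero_iff]; exact norm_bottE u hu x⟩
  obtain ⟨g, hg⟩ := f.exists_extension' he
  have hgf : ∀ x, (g (ι x) : Matrix J J ℂ) = bottE u x := by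
    intro x
    have h1 := congrFun hg x
    exact congrArg Subtype.val h1
  set h : Cb d → Matrix J J ℂ := fun y => (g y : Matrix J J ℂ)ᴴ * (g y : Matrix J J ℂ) with hh
  have hgc : Continuous (fun y => (g y : Matrix J J ℂ)) := continuous_subtype_val.comp g.continuous
  have hhc : Continuous h := hgc.matrix_conjTranspose.matrix_mul hgc
  have hh0 : ∀ y, (h y).PosSemidef := fun y => Matrix.posSemidef_conjTranspose_mul_self _
  have hh1 : ∀ y, (1 - h y).PosSemidef := by
    intro y
    apply one_sub_psd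
    have h1 := (g y).2
    rwa [mem_closedBall_zero_iff] at h1
  have hhK : ∀ x, h (ι x) = bottE u x := by
    intro x
    show (g (ι x) : Matrix J J ℂ)ᴴ * (g (ι x) : Matrix J J ℂ) = _
    rw [hgf, bottE_herm, bottE_mul u hu]
  set ψ : Cb d → ℝ := fun y => max 0 (min 1 ((k - (h y).trace.re) / η)) with hψ
  have hψc : Continuous ψ := by
    have h1 : Continuous (fun y => (h y).trace.re) :=
      Complex.continuous_re.comp hhc.matrix_trace
    fun_prop
  have hψ0 : ∀ y, 0 ≤ ψ y := fun y => le_max_left _ _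
  have hψ1 : ∀ y, ψ y ≤ 1 := fun y => max_le zero_le_one (min_le_left _ _)
  refine ⟨ι, fun y => h y + (ψ y : ℂ) • (1 - h y), hι, ?_, ?_, ?_⟩
  · have hc2 : Continuous (fun y => (1 : Matrix J J ℂ) - h y) := continuous_const.sub hhc
    have hc3 : Continuous (fun y => (ψ y : ℂ)) := Complex.continuous_ofReal.comp hψc
    exact hhc.add (hc3.smul hc2)
  · intro y
    have hc0 : (0 : ℂ) ≤ (ψ y : ℂ) := by exact_mod_cast hψ0 y
    have hc1 : (0 : ℂ) ≤ ((1 - ψ y : ℝ) : ℂ) := by
      have := sub_nonneg.2 (hψ1 y)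
      exact_mod_cast this
    refine ⟨(hh0 y).add ((hh1 y).smul hc0), ?_, ?_⟩
    · have h1 : 1 - (h y + (ψ y : ℂ) • (1 - h y)) = ((1 - ψ y : ℝ) : ℂ) • (1 - h y) := by
        rw [Complex.ofReal_sub, Complex.ofReal_one, sub_smul, one_smul]
        abel
      rw [h1]
      exact (hh1 y).smul hc1
    · have ht : (h y + (ψ y : ℂ) • (1 - h y)).trace.re =
          (h y).trace.re + ψ y * (Fintype.card J - (h y).trace.re) := by
        rw [Matrix.trace_add, Matrix.trace_smul, Matrix.trace_sub, Matrix.trace_one,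
          Complex.add_re, smul_eq_mul, Complex.re_ofReal_mul, Complex.sub_re, Complex.natCast_re]
      rw [ht]
      have h2 : 0 ≤ (Fintype.card J : ℝ) - (h y).trace.re := by
        have h3 := (hh1 y).trace_nonneg
        have h4 := (Complex.le_def.1 h3).1
        rw [Matrix.trace_sub, Matrix.trace_one, Complex.sub_re, Complex.natCast_re,
          Complex.zero_re] at h4
        exact h4
      rcases le_or_gt ((k : ℝ) - η) (h y).trace.re with h3 | h3
      · have h4 := mul_nonneg (hψ0 y) h2
        linarith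
      · have h4 : ψ y = 1 := by
          have h5 : 1 ≤ (k - (h y).trace.re) / η := by
            rw [le_div_iff₀ hη]
            linarith
          show max 0 (min 1 ((k - (h y).trace.re) / η)) = 1
          rw [min_eq_left h5, max_eq_right zero_le_one]
        have h5 : k * 2 ≤ Fintype.card J := by
          have h6 := Fintype.card_le_of_injective u hu
          rwa [Fintype.card_prod, Fintype.card_fin, Fintype.card_fin] at h6
        have h6 : (k : ℝ) * 2 ≤ Fintype.card J := by exact_mod_cast h5
        have h7 : (0 : ℝ) ≤ k := Nat.cast_nonneg k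
        rw [h4]
        linarith
  · intro x
    have h1 : ψ (ι x) = 0 := by
      show max 0 (min 1 ((k - (h (ι x)).trace.re) / η)) = 0
      rw [hhK, bottE_trace u hu, Complex.natCast_re, sub_self, zero_div, min_eq_right zero_le_one,
        max_self]
    show h (ι x) + ((ψ (ι x) : ℝ) : ℂ) • (1 - h (ι x)) = _
    rw [h1, Complex.ofReal_zero, zero_smul, add_zero, hhK]

end Pool.Agent.H155.ELELT
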