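import Mathlib
import Pool.Agent.H316.EM.Stm2

/-!
`S_PURE` and `S_SER` of project EM.
-/

set_option autoImplicit false

namespace Pool.Agent.H155

open Pool.Agent.Y45.HM (GF lc)
open Pool.Agent.Helper294.HallC (Ser)
open Pool.Agent.H316.EM

theorem em_pure : S_PURE := by
  intro J A _ _ _ τ U hGF m hm hτ u hu hum
  obtain ⟨B, hB, h1, h2⟩ := hGF
  have key : ∀ u ∈ m • (⊤ : Submodule J A), ∃ (k : ℕ) (l : A →₀ J), (l.support : Set A) ⊆ B ∧
      τ ^ k • u - lc l ∈ m • U := by
    intro u hu
    refine Submodule.smul_induction_on hu ?_ ?_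
    · intro μ hμ y _
      obtain ⟨k, l, hl, hk⟩ := h2 y Submodule.mem_top
      refine ⟨k, μ • l, (Finset.coe_subset.2 Finsupp.support_smul).trans hl, ?_⟩
      have h3 := Submodule.smul_mem_smul hμ hk
      rw [smul_sub] at h3
      rw [lc, map_smul, smul_comm]
      exact h3
    · rintro x y ⟨k, l, hl, hk⟩ ⟨k', l', hl', hk'⟩
      refine ⟨k + k', τ ^ k' • l + τ ^ k • l', ?_, ?_⟩
      · classical
        intro a ha
        rcases Finset.mem_union.1 (Finsupp.support_add ha) with h | h
        · exact hl (Finsupp.support_smul h)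
        · exact hl' (Finsupp.support_smul h)
      · have e : τ ^ (k + k') • (x + y) - lc (τ ^ k' • l + τ ^ k • l') =
            τ ^ k' • (τ ^ k • x - lc l) + τ ^ k • (τ ^ k' • y - lc l') := by
          rw [lc, map_add, map_smul, map_smul, smul_add, smul_sub, smul_sub, ← mul_smul, ← mul_smul,
            ← pow_add, ← pow_add, add_comm k' k]
          abel
        rw [e]
        exact Submodule.add_mem _ (Submodule.smul_mem _ _ hk) (Submodule.smul_mem _ _ hk')
  obtain ⟨k, l, hl, hk⟩ := key u hum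
  have h3 : lc l ∈ U := by
    have h4 : lc l = τ ^ k • u - (τ ^ k • u - lc l) := by abel
    rw [h4]
    exact Submodule.sub_mem _ (Submodule.smul_mem _ _ hu) (Submodule.smul_le_right hk)
  have h5 := h1 l hl h3
  rw [h5, lc, map_zero, sub_zero] at hk
  have h6 : τ ^ k ∉ m := fun h => hτ (hm.isPrime.mem_of_pow_mem k h)
  obtain ⟨c, μ, hμ, hc⟩ := hm.exists_inv h6
  have h7 : u = c • (τ ^ k • u) + μ • u := by
    rw [← mul_smul, ← add_smul, hc, one_smul]
  rw [h7]
  exact Submodule.add_mem _ (Submodule.smul_mem _ _ hk) (Submodule.smul_mem_smul hμ hu)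

theorem em_ser : S_SER := by
  intro Γ _ β
  set t : Γ := β (Multiplicative.ofAdd (1, 0)) with ht
  set s : Γ := β (Multiplicative.ofAdd (0, 1)) with hs
  have hts : Commute t s := by
    show t * s = s * t
    rw [ht, hs, ← map_mul β, ← map_mul β, mul_comm]
  refine ⟨Subgroup.zpowers s, t, ?_, ⟨_, rfl⟩, ?_, ?_, ⊥, s, bot_le, Subgroup.mem_zpowers s, ?_, ?_, rfl⟩
  · rw [Subgroup.zpowers_le]
    exact ⟨_, rfl⟩
  · intro x
    constructor
    · rintro ⟨k, rfl⟩
      refine ⟨k, ?_⟩
      have := (hts.zpow_right k).eq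
      simp only
      rw [this, mul_inv_cancel_right]
    · rintro ⟨k, hk⟩
      refine ⟨k, ?_⟩
      simp only at hk ⊢
      have h1 := (hts.zpow_right k).eq
      have h2 : x = t⁻¹ * (t * x * t⁻¹) * t := by group
      rw [h2, ← hk, mul_assoc, ← h1, inv_mul_cancel_left]
  · rintro x ⟨b, rfl⟩
    refine ⟨(Multiplicative.toAdd b).1, (Multiplicative.toAdd b).2, ?_⟩
    simp only
    rw [ht, hs, ← map_zpow β, ← map_zpow β, ← map_mul β]
    congr 1
    apply Multiplicative.toAdd.injective
    rw [toAdd_mul, toAdd_zpow, toAdd_zpow]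
    ext <;> simp
  · intro x
    rw [Subgroup.mem_bot, Subgroup.mem_bot]
    constructor
    · rintro rfl
      group
    · intro h
      have : x = s⁻¹ * (s * x * s⁻¹) * s := by group
      rw [this, h]
      group
  · rintro x ⟨k, rfl⟩
    refine ⟨k, ?_⟩
    simp only
    rw [Subgroup.mem_bot, ← zpow_add, neg_add_cancel, zpow_zero]

end Pool.Agent.H155
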