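import Pool.Agent.H979.FR.Stm

/-!
# FR REG (project of helper979, MP_e2f79e_pr): a transitive infinite connected graph is regular of
degree at least two (helper155)
-/

set_option autoImplicit false

namespace Pool.Agent.H155

open Finset
open Pool.Agent.H979.FR

theorem fr_reg : S_REG := by
  classical
  intro V _ G _ hc ht
  obtain ⟨v⟩ := hc.nonempty
  refine ⟨G.degree v, ?_, ?_⟩
  · by_contra hlt
    have hdeg : ∀ y, G.degree y ≤ 1 := by
      intro y
      obtain ⟨φ, hφ⟩ := ht v y
      have h1 : G.degree (φ v) = G.degree v := φ.degree_eq v
      rw [hφ] at h1
      omega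
    have hmem : ∀ y : V, y ∈ insert v (G.neighborFinset v) := by
      intro y
      have hr : Relation.ReflTransGen G.Adj v y :=
        (SimpleGraph.reachable_iff_reflTransGen v y).1 (hc.preconnected v y)
      induction hr with
      | refl => exact mem_insert_self _ _
      | @tail y z _ hyz ih =>
        rcases mem_insert.1 ih with h | h
        · rw [h] at hyz
          exact mem_insert_of_mem ((G.mem_neighborFinset v z).2 hyz)
        · have h1 : v ∈ G.neighborFinset y :=
            (G.mem_neighborFinset y v).2 (((G.mem_neighborFinset v y).1 h).symm)
          have h2 : z ∈ G.neighborFinset y := (G.mem_neighborFinset y z).2 hyz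
          have h3 : z = v := card_le_one.1 (by
            rw [G.card_neighborFinset_eq_degree]; exact hdeg y) z h2 v h1
          rw [h3]
          exact mem_insert_self _ _
    have hfin : (Set.univ : Set V).Finite :=
      (insert v (G.neighborFinset v)).finite_toSet.subset fun y _ => hmem y
    exact Set.infinite_univ hfin
  · intro y
    obtain ⟨φ, hφ⟩ := ht v y
    have h1 : G.degree (φ v) = G.degree v := φ.degree_eq v
    rw [hφ] at h1
    exact h1

end Pool.Agent.H155
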