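import Pool.Agent.H867.FT.Gen

/-! The different of a finite separable extension of a discrete valuation ring (statement `S_DIF`
of project FT, helper867). -/

set_option autoImplicit false

namespace Pool.Agent.H155.FT867

open scoped nonZeroDivisors
open Module

section

variable (V L W K : Type) [CommRing V] [IsDomain V] [IsDiscreteValuationRing V] [Field L]
    [Algebra V L] [IsFractionRing V L] [CommRing W] [IsDomain W] [Algebra V W] [Field K]
    [Algebra W K] [IsFractionRing W K] [Algebra L K] [Algebra V K] [IsScalarTower V L K]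
    [IsScalarTower V W K] [IsIntegralClosure W V K] [FiniteDimensional L K]
    [Algebra.IsSeparable L K]

include L K in
theorem inj_VW : Function.Injective (algebraMap V W) := by
  have h1 : Function.Injective (algebraMap V K) := by
    rw [IsScalarTower.algebraMap_eq V L K]
    exact (algebraMap L K).injective.comp (IsFractionRing.injective V L)
  rw [IsScalarTower.algebraMap_eq V W K] at h1
  exact Function.Injective.of_comp h1

include V L K in
theorem pid_W : IsPrincipalIdealRing W := by
  haveI hW : IsDedekindDomain W := IsIntegralClosure.isDedekindDomain V L K W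
  have hint : Algebra.IsIntegral V W := IsIntegralClosure.isIntegral_algebra V K
  have hinj := inj_VW V L W K
  apply IsPrincipalIdealRing.of_finite_primes
  have hfin : ((IsLocalRing.maximalIdeal V).primesOver W).Finite := by
    haveI : FaithfulSMul V W := (faithfulSMul_iff_algebraMap_injective V W).2 hinj
    exact IsDedekindDomain.primesOver_finite (IsLocalRing.maximalIdeal V) W
  refine (hfin.union (Set.finite_singleton (⊥ : Ideal W))).subset ?_
  intro P hP
  have hPp : P.IsPrime := hP
  by_cases hb : P.comap (algebraMap V W) = ⊥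
  · right
    exact Ideal.eq_bot_of_comap_eq_bot hb
  · left
    refine ⟨hPp, ⟨?_⟩⟩
    have h1 : (P.comap (algebraMap V W)).IsPrime := Ideal.comap_isPrime _ _
    have h2 : (P.comap (algebraMap V W)).IsMaximal := h1.isMaximal hb
    exact (IsLocalRing.eq_maximalIdeal h2).symm

theorem ex_delta : ∃ δ : W, δ ≠ 0 ∧
      (∀ y : K, (∀ w : W, ∃ v : V, algebraMap V L v = Algebra.trace L K (y * algebraMap W K w)) ↔
        ∃ w : W, y * algebraMap W K δ = algebraMap W K w) := by
  haveI hW : IsDedekindDomain W := IsIntegralClosure.isDedekindDomain V L K W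
  haveI hP : IsPrincipalIdealRing W := pid_W V L W K
  set D := FractionalIdeal.dual V L (1 : FractionalIdeal W⁰ K) with hD
  have hmem : ∀ y : K, y ∈ D ↔
      ∀ w : W, ∃ v : V, algebraMap V L v = Algebra.trace L K (y * algebraMap W K w) := by
    intro y
    have h10 : (1 : FractionalIdeal W⁰ K) ≠ 0 := one_ne_zero
    rw [hD, FractionalIdeal.mem_dual h10]
    constructor
    · intro h w
      obtain ⟨v, hv⟩ := h (algebraMap W K w) (FractionalIdeal.mem_one_iff W⁰ |>.2 ⟨w, rfl⟩)
      exact ⟨v, by rw [hv, Algebra.traceForm_apply]⟩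
    · intro h a ha
      obtain ⟨w, rfl⟩ := (FractionalIdeal.mem_one_iff W⁰).1 ha
      obtain ⟨v, hv⟩ := h w
      exact ⟨v, by rw [hv, Algebra.traceForm_apply]⟩
  obtain ⟨x, hx⟩ := (FractionalIdeal.isPrincipal_iff D).1 inferInstance
  have hD0 : D ≠ 0 := FractionalIdeal.dual_ne_zero V L one_ne_zero
  have hx0 : x ≠ 0 := by
    rintro rfl
    rw [FractionalIdeal.spanSingleton_zero] at hx
    exact hD0 hx
  have h1D : (1 : K) ∈ D := FractionalIdeal.one_le_dual_one V L (FractionalIdeal.one_mem_one W⁰)
  rw [hx, FractionalIdeal.mem_spanSingleton] at h1D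
  obtain ⟨δ, hδ⟩ := h1D
  rw [Algebra.smul_def] at hδ
  have hδ0 : δ ≠ 0 := by
    rintro rfl
    rw [map_zero, zero_mul] at hδ
    exact zero_ne_one hδ
  refine ⟨δ, hδ0, fun y => ?_⟩
  rw [← hmem y, hx, FractionalIdeal.mem_spanSingleton]
  have hδK : algebraMap W K δ ≠ 0 := by
    intro h
    rw [h, zero_mul] at hδ
    exact zero_ne_one hδ
  constructor
  · rintro ⟨w, rfl⟩
    refine ⟨w, ?_⟩
    rw [Algebra.smul_def, mul_assoc, mul_comm x, hδ, mul_one]
  · rintro ⟨w, hw⟩
    refine ⟨w, ?_⟩
    rw [Algebra.smul_def, ← hw, mul_assoc, hδ, mul_one]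

end

theorem dif : Pool.Agent.H867.FT.S_DIF := by
  classical
  intro V L W K _ _ _ _ _ _ _ _ _ _ _ _ _ _ _ _ _ _ _ ι _ _ b
  obtain ⟨δ, hδ0, hδ⟩ := ex_delta V L W K
  refine ⟨δ, hδ0, hδ, ?_⟩
  haveI : Module.Finite V W := Module.Finite.of_basis b
  haveI : Module.Free V W := Module.Free.of_basis b
  haveI hloc : IsLocalization (Algebra.algebraMapSubmonoid W V⁰) K :=
    IsIntegralClosure.isLocalization V L K W
  set bK : Basis ι L K := b.localizationLocalization L V⁰ K with hbK
  have hbKi : ∀ i, bK i = algebraMap W K (b i) := fun i =>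
    Basis.localizationLocalization_apply L V⁰ K b i
  have hinjW : Function.Injective (algebraMap W K) := IsFractionRing.injective W K
  have hinjV : Function.Injective (algebraMap V L) := IsFractionRing.injective V L
  have hδK : algebraMap W K δ ≠ 0 := by
    intro h
    exact hδ0 (hinjW (h.trans (map_zero _).symm))
  set x : K := (algebraMap W K δ)⁻¹ with hxd
  have hxδ : x * algebraMap W K δ = 1 := inv_mul_cancel₀ hδK
  have hxD : ∀ w : W, ∃ v : V, algebraMap V L v = Algebra.trace L K (x * algebraMap W K w) :=
    (hδ x).2 ⟨1, by rw [hxδ, map_one]⟩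
  -- the matrix A
  have hA : ∀ i j, ∃ v : V, algebraMap V L v = Algebra.trace L K (x * (bK i * bK j)) := by
    intro i j
    obtain ⟨v, hv⟩ := hxD (b i * b j)
    exact ⟨v, by rw [hv, map_mul (algebraMap W K), hbKi, hbKi]⟩
  choose A hA using hA
  -- the dual basis
  set bs : Basis ι L K := LinearMap.BilinForm.dualBasis (Algebra.traceForm L K)
    (traceForm_nondegenerate L K) bK with hbs
  have hdual : ∀ i j, Algebra.trace L K (bs i * bK j) = if j = i then 1 else 0 := by
    intro i j
    have := LinearMap.BilinForm.apply_dualBasis_left (B := Algebra.traceForm L K)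
      (traceForm_nondegenerate L K) bK i j
    rw [Algebra.traceForm_apply] at this
    exact this
  have hbsD : ∀ j, ∃ w : W, bs j * algebraMap W K δ = algebraMap W K w := by
    intro j
    rw [← hδ (bs j)]
    intro w
    refine ⟨b.repr w j, ?_⟩
    have h1 : algebraMap W K w = ∑ i, algebraMap V L (b.repr w i) • bK i := by
      conv_lhs => rw [← b.sum_repr w]
      rw [map_sum]
      apply Finset.sum_congr rfl
      intro i _
      rw [hbKi, Algebra.smul_def, Algebra.smul_def, map_mul,
        ← IsScalarTower.algebraMap_apply V W K, ← IsScalarTower.algebraMap_apply V L K]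
    rw [h1, Finset.mul_sum, map_sum]
    rw [Finset.sum_eq_single j]
    · rw [mul_smul_comm, map_smul, hdual, if_pos rfl, smul_eq_mul, mul_one]
    · intro i _ hij
      rw [mul_smul_comm, map_smul, hdual, if_neg hij, smul_zero]
    · intro h
      exact absurd (Finset.mem_univ j) h
  choose c hc using hbsD
  -- B * A = 1
  have hBA : (Matrix.of fun j k => b.repr (c j) k) * (Matrix.of A) = (1 : Matrix ι ι V) := by
    ext j i
    apply hinjV
    rw [Matrix.mul_apply, map_sum]
    have h1 : ∀ k, algebraMap V L ((Matrix.of fun j k => b.repr (c j) k) j k * Matrix.of A k i) =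
        Algebra.trace L K (x * ((algebraMap V L (b.repr (c j) k) • bK k) * bK i)) := by
      intro k
      rw [Matrix.of_apply, Matrix.of_apply, map_mul, hA, smul_mul_assoc, mul_smul_comm, map_smul,
        smul_eq_mul]
    rw [Finset.sum_congr rfl (fun k _ => h1 k), ← map_sum, ← Finset.mul_sum, ← Finset.sum_mul]
    have h2 : ∑ k, algebraMap V L (b.repr (c j) k) • bK k = algebraMap W K (c j) := by
      conv_rhs => rw [← b.sum_repr (c j)]
      rw [map_sum]
      apply Finset.sum_congr rfl
      intro i _
      rw [hbKi, Algebra.smul_def, Algebra.smul_def, map_mul,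
        ← IsScalarTower.algebraMap_apply V W K, ← IsScalarTower.algebraMap_apply V L K]
    rw [h2, ← hc j]
    have h3 : x * (bs j * algebraMap W K δ * bK i) = bs j * bK i := by
      linear_combination (bs j * bK i) * hxδ
    rw [h3, hdual, Matrix.one_apply]
    by_cases hij : i = j
    · rw [if_pos hij, if_pos hij.symm, map_one]
    · rw [if_neg hij, if_neg (Ne.symm hij), map_zero]
  have hdet : (Matrix.of fun j k => b.repr (c j) k).det * (Matrix.of A).det = (1 : V) := by
    rw [← Matrix.det_mul, hBA, Matrix.det_one]
  -- determinant of A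
  have hAm : (algebraMap V L).mapMatrix (Matrix.of A) =
      (Algebra.leftMulMatrix bK x).transpose * Algebra.traceMatrix L bK := by
    ext i j
    rw [RingHom.mapMatrix_apply, Matrix.map_apply, Matrix.of_apply, hA, Matrix.mul_apply]
    have h1 : ∀ k, (Algebra.leftMulMatrix bK x).transpose i k * Algebra.traceMatrix L bK k j =
        Algebra.trace L K ((bK.repr (x * bK i) k • bK k) * bK j) := by
      intro k
      rw [Matrix.transpose_apply, Algebra.leftMulMatrix_eq_repr_mul, Algebra.traceMatrix_apply,
        Algebra.traceForm_apply, smul_mul_assoc, map_smul, smul_eq_mul]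
    rw [Finset.sum_congr rfl (fun k _ => h1 k), ← map_sum, ← Finset.sum_mul, bK.sum_repr, mul_assoc]
  have hdetA : algebraMap V L (Matrix.of A).det =
      Algebra.norm L x * algebraMap V L (Algebra.discr V b) := by
    rw [RingHom.map_det, hAm, Matrix.det_mul, Matrix.det_transpose,
      ← Algebra.norm_eq_matrix_det bK x, ← Algebra.discr_def,
      ← Algebra.discr_localizationLocalization V V⁰ K b]
  have hnorm : Algebra.norm L (algebraMap W K δ) = algebraMap V L (Algebra.norm V δ) :=
    Algebra.norm_localization V V⁰ δ
  have hnx : Algebra.norm L x * Algebra.norm L (algebraMap W K δ) = 1 := by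
    rw [← map_mul, hxδ, map_one]
  have hfin : (Matrix.of A).det * Algebra.norm V δ = Algebra.discr V b := by
    apply hinjV
    rw [map_mul, hdetA, ← hnorm]
    linear_combination (algebraMap V L (Algebra.discr V b)) * hnx
  refine ⟨(Matrix.of fun j k => b.repr (c j) k).det, IsUnit.of_mul_eq_one _ hdet, ?_⟩
  rw [← hfin, ← mul_assoc, hdet, one_mul]

end Pool.Agent.H155.FT867
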