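import Pool.Agent.H979.GW.StmA

/-!
# Project GW, part SQUI: bounds and uniform integrability from the law of large numbers
-/

set_option autoImplicit false

open MeasureTheory ProbabilityTheory Filter Topology Set
open scoped ENNReal NNReal

namespace Pool.Agent.H155

open Pool.Agent.H979.GW

namespace SQUI

variable {Q : Type} [Fintype Q] [DecidableEq Q]

/-- the law of large numbers in terms of the sums over the generations -/
lemma lln_sum {q : Q → Measure (Q → ℕ)} {ρ : ℝ} {e m : Q → ℝ} (h3 : S_LLN q ρ e m)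
    (h4 : S_LEV Q) (f : Q → Env Q → ℝ) (hf : ∀ b, Integrable (f b) (law q b)) (a : Q) :
    ∀ᵐ ω ∂(law q a), Tendsto (fun k : ℕ => ∑ v ∈ Lev (cht ω) k, (ρ⁻¹) ^ k *
      f (ty a v) (sh v ω)) atTop (𝓝 ((∑ b, m b * ∫ ω, f b ω ∂(law q b)) * WW ρ e a ω)) := by
  filter_upwards [h3 f hf a] with ω hω
  refine hω.congr fun k => ?_
  rw [h4.1 f k a ω, Finset.mul_sum]

lemma bdd_of_tendsto {s : ℕ → ℝ} {l : ℝ} (h : Tendsto s atTop (𝓝 l)) : ∃ C, ∀ k, s k ≤ C := by
  obtain ⟨C, hC⟩ := h.bddAbove_range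
  exact ⟨C, fun k => hC ⟨k, rfl⟩⟩

end SQUI

open SQUI

theorem gw_squi {Q : Type} [Fintype Q] [DecidableEq Q] (q : Q → Measure (Q → ℕ))
    [∀ a, IsProbabilityMeasure (q a)] {ρ : ℝ} {e m : Q → ℝ} {C r : ℝ} (hy : Hyp q ρ e m C r)
    (h1 : S_M1 q) (h2 : S_W q ρ e m) (h3 : S_LLN q ρ e m) (h4 : S_LEV Q) : S_SQUI q ρ e := by
  classical
  have hWm : ∀ b, Measurable (WW ρ e b) := h2.1
  have hW2 : ∀ b, Integrable (fun ω => WW ρ e b ω ^ 2) (law q b) := fun b =>
    (h2.2.2.1 b).integrable_sq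
  have hS : ∀ (M : ℕ) b, MeasurableSet {ω | (M : ℝ) < WW ρ e b ω} := fun M b =>
    measurableSet_lt measurable_const (hWm b)
  -- the three test functions
  have hf1 : ∀ b, Integrable (fun ω : Env Q => ρ + ((cht ω []).card : ℝ)) (law q b) := by
    intro b
    have h5 := (h1.2 (fun _ _ => (1 : ℝ)) (fun c => integrable_const _) b).1
    have h6 : (TT (fun _ _ => (1 : ℝ)) b : Env Q → ℝ) = fun ω => ((cht ω []).card : ℝ) := by
      funext ω
      simp [TT, cht]
    rw [h6] at h5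
    exact (integrable_const _).add h5
  let f3 : ℕ → Q → Env Q → ℝ := fun M b ω => if (M : ℝ) < WW ρ e b ω then WW ρ e b ω ^ 2 else 0
  have hf3i : ∀ M b, f3 M b = {ω | (M : ℝ) < WW ρ e b ω}.indicator (fun ω => WW ρ e b ω ^ 2) := by
    intro M b
    funext ω
    simp only [f3, Set.indicator, Set.mem_ofPred_eq]
  have hf3 : ∀ M b, Integrable (f3 M b) (law q b) := by
    intro M b
    rw [hf3i]
    exact (hW2 b).indicator (hS M b)
  have hlim : Tendsto (fun M : ℕ => ∑ b, m b * ∫ ω, f3 M b ω ∂(law q b)) atTop (𝓝 0) := by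
    have h5 : ∀ b, Tendsto (fun M : ℕ => ∫ ω, f3 M b ω ∂(law q b)) atTop (𝓝 0) := by
      intro b
      have h6 := tendsto_integral_of_dominated_convergence (μ := law q b)
        (F := fun M ω => f3 M b ω) (f := fun _ => (0 : ℝ)) (fun ω => WW ρ e b ω ^ 2)
        (fun M => (hf3 M b).aestronglyMeasurable) (hW2 b)
        (fun M => Eventually.of_forall fun ω => by
          simp only [f3]
          split_ifs
          · rw [Real.norm_eq_abs, abs_of_nonneg (sq_nonneg _)]
          · rw [norm_zero]; exact sq_nonneg _)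
        (Eventually.of_forall fun ω => by
          refine tendsto_const_nhds.congr' ?_
          filter_upwards [eventually_ge_atTop ⌈WW ρ e b ω⌉₊] with M hM
          have : WW ρ e b ω ≤ M := (Nat.le_ceil _).trans (by exact_mod_cast hM)
          simp only [f3]
          rw [if_neg (not_lt.2 this)])
      simpa using h6
    have h6 := tendsto_finsetSum (Finset.univ : Finset Q) (fun b _ => (h5 b).const_mul (m b))
    simpa using h6
  intro a
  have hA := lln_sum h3 h4 (fun _ ω => ρ + ((cht ω []).card : ℝ)) hf1 a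
  have hB := lln_sum h3 h4 (fun b ω => WW ρ e b ω ^ 2) hW2 a
  have hC : ∀ᵐ ω ∂(law q a), ∀ M : ℕ, Tendsto (fun k : ℕ => ∑ v ∈ Lev (cht ω) k, (ρ⁻¹) ^ k *
      f3 M (ty a v) (sh v ω)) atTop
      (𝓝 ((∑ b, m b * ∫ ω, f3 M b ω ∂(law q b)) * WW ρ e a ω)) := by
    rw [ae_all_iff]
    exact fun M => lln_sum h3 h4 (f3 M) (hf3 M) a
  filter_upwards [hA, hB, hC] with ω hA hB hC
  refine ⟨?_, ?_, ?_⟩
  · exact bdd_of_tendsto hA
  · exact bdd_of_tendsto hB
  · intro ε hε
    have h5 : Tendsto (fun M : ℕ => (∑ b, m b * ∫ ω, f3 M b ω ∂(law q b)) * WW ρ e a ω) atTop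
        (𝓝 0) := by
      have := hlim.mul_const (WW ρ e a ω)
      simpa using this
    obtain ⟨M, hM⟩ := (h5.eventually (gt_mem_nhds hε)).exists
    obtain ⟨k₀, hk₀⟩ := eventually_atTop.1 ((hC M).eventually (gt_mem_nhds hM))
    exact ⟨M, k₀, fun k hk => (hk₀ k hk).le⟩

end Pool.Agent.H155
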