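import Pool.Agent.H676.LC.Stm

set_option autoImplicit false

/-! Project LC, `S_GOOD`: consistent positions (adaptation of `ED/TGame.lean`). -/

namespace Pool.Agent.H155.LCGOOD

open Finset Pool.Agent.H676.SC Pool.Agent.H676.ED

section lin

variable {F d : ℕ}

lemma z2_self (a : ZMod 2) : a + a = 0 := CharTwo.add_self_eq_zero a

lemma fd_self (a : Fd d) : a + a = 0 := by
  funext i
  exact z2_self (a i)

lemma dot_add_left (a b w : Fd d) : dot (a + b) w = dot a w + dot b w := by
  unfold dot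
  rw [← Finset.sum_add_distrib]
  apply Finset.sum_congr rfl
  intro i _
  rw [Pi.add_apply, add_mul]

lemma dot_add_right (a w w' : Fd d) : dot a (w + w') = dot a w + dot a w' := by
  unfold dot
  rw [← Finset.sum_add_distrib]
  apply Finset.sum_congr rfl
  intro i _
  rw [Pi.add_apply, mul_add]

lemma dot_zero_left (w : Fd d) : dot (0 : Fd d) w = 0 := by
  unfold dot
  apply Finset.sum_eq_zero
  intro i _
  rw [Pi.zero_apply, zero_mul]

lemma ite_symmDiff {M ι : Type} [DecidableEq ι] [AddCommGroup M] (hM : ∀ a : M, a + a = 0)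
    (Z1 Z2 : Finset ι) (e : ι) (m : M) :
    (if e ∈ symmDiff Z1 Z2 then m else 0) =
      (if e ∈ Z1 then m else 0) + (if e ∈ Z2 then m else 0) := by
  by_cases h1 : e ∈ Z1
  · by_cases h2 : e ∈ Z2
    · have h : e ∉ symmDiff Z1 Z2 := by
        rw [Finset.mem_symmDiff]
        tauto
      rw [if_neg h, if_pos h1, if_pos h2, hM]
    · have h : e ∈ symmDiff Z1 Z2 := by
        rw [Finset.mem_symmDiff]
        tauto
      rw [if_pos h, if_pos h1, if_neg h2, add_zero]
  · by_cases h2 : e ∈ Z2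
    · have h : e ∈ symmDiff Z1 Z2 := by
        rw [Finset.mem_symmDiff]
        tauto
      rw [if_pos h, if_neg h1, if_pos h2, zero_add]
    · have h : e ∉ symmDiff Z1 Z2 := by
        rw [Finset.mem_symmDiff]
        tauto
      rw [if_neg h, if_neg h1, if_neg h2, zero_add]

lemma coef_symmDiff (c : Fin F → Fin F → Fd d) (Z1 Z2 : Finset (Sym2 (Fin F))) (x : Fin F) :
    coef c (symmDiff Z1 Z2) x = coef c Z1 x + coef c Z2 x := by
  unfold coef
  rw [← Finset.sum_add_distrib]
  apply Finset.sum_congr rfl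
  intro y _
  exact ite_symmDiff fd_self Z1 Z2 _ _

lemma bsum_symmDiff (b : Sym2 (Fin F) → ZMod 2) (Z1 Z2 : Finset (Sym2 (Fin F))) :
    ∑ e ∈ symmDiff Z1 Z2, b e = ∑ e ∈ Z1, b e + ∑ e ∈ Z2, b e := by
  have h : ∀ Z : Finset (Sym2 (Fin F)), ∑ e ∈ Z, b e = ∑ e, if e ∈ Z then b e else 0 := by
    intro Z
    rw [Finset.sum_ite_mem, Finset.univ_inter]
  rw [h, h, h, ← Finset.sum_add_distrib]
  apply Finset.sum_congr rfl
  intro e _
  exact ite_symmDiff z2_self Z1 Z2 e _

lemma coef_empty (c : Fin F → Fin F → Fd d) (x : Fin F) : coef c ∅ x = 0 := by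
  unfold coef
  apply Finset.sum_eq_zero
  intro y _
  rw [if_neg (Finset.notMem_empty _)]

/-- sets of equations whose sum involves only the variables in `A` -/
def ZZ (E : SimpleGraph (Fin F)) (c : Fin F → Fin F → Fd d) (r : ℕ) (A : Finset (Fin F))
    (Z : Finset (Sym2 (Fin F))) : Prop :=
  (∀ e ∈ Z, e ∈ E.edgeSet) ∧ (tch Z).card ≤ r ∧ ∀ x, x ∉ A → coef c Z x = 0

/-- good assignments of differences -/
def Good (E : SimpleGraph (Fin F)) (c : Fin F → Fin F → Fd d) (r : ℕ)
    (b : Sym2 (Fin F) → ZMod 2) (A : Finset (Fin F)) (t : Fin F → Fd d) : Prop :=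
  ∀ Z, ZZ E c r A Z → ∑ x, dot (coef c Z x) (t x) = ∑ e ∈ Z, b e

variable {E : SimpleGraph (Fin F)} {c : Fin F → Fin F → Fd d} {r K : ℕ}
  {b : Sym2 (Fin F) → ZMod 2}

lemma Good.mono {A A' : Finset (Fin F)} (h : A' ⊆ A) {t : Fin F → Fd d} (ht : Good E c r b A t) :
    Good E c r b A' t := by
  intro Z hZ
  exact ht Z ⟨hZ.1, hZ.2.1, fun x hx => hZ.2.2 x (fun hx' => hx (h hx'))⟩

lemma mem_tch {Z : Finset (Sym2 (Fin F))} {x : Fin F} : x ∈ tch Z ↔ ∃ y, s(x, y) ∈ Z := by
  unfold tch
  rw [Finset.mem_filter]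
  exact ⟨fun h => h.2, fun h => ⟨Finset.mem_univ _, h⟩⟩

lemma eq_empty_of_tch {Z : Finset (Sym2 (Fin F))} (h : tch Z = ∅) : Z = ∅ := by
  rw [Finset.eq_empty_iff_forall_notMem]
  intro e he
  induction e using Sym2.ind with
  | _ x y =>
    have hx : x ∈ tch Z := mem_tch.mpr ⟨y, he⟩
    rw [h] at hx
    exact Finset.notMem_empty _ hx

/-- at most four fifths of the touched variables cancel -/
def NiceG (E : SimpleGraph (Fin F)) (c : Fin F → Fin F → Fd d) (r : ℕ) : Prop :=
  ∀ Z : Finset (Sym2 (Fin F)), (∀ e ∈ Z, e ∈ E.edgeSet) → (tch Z).card ≤ r →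
    5 * ((tch Z).filter fun x => coef c Z x = 0).card ≤ 4 * (tch Z).card

lemma good_empty (hN : NiceG E c r) (t : Fin F → Fd d) : Good E c r b ∅ t := by
  intro Z hZ
  have h0 : ∀ x, coef c Z x = 0 := fun x => hZ.2.2 x (Finset.notMem_empty x)
  have h1 := hN Z hZ.1 hZ.2.1
  rw [Finset.filter_true_of_mem (fun x _ => h0 x)] at h1
  have h2 : (tch Z).card = 0 := by omega
  have h3 : Z = ∅ := eq_empty_of_tch (Finset.card_eq_zero.mp h2)
  rw [h3, Finset.sum_empty]
  apply Finset.sum_eq_zero
  intro x _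
  rw [coef_empty, dot_zero_left]

lemma tch_card_le {A : Finset (Fin F)} {Z : Finset (Sym2 (Fin F))} (hZ : ZZ E c r A Z) :
    tch Z ⊆ A ∪ (tch Z).filter (fun x => coef c Z x = 0) := by
  intro x hx
  rw [Finset.mem_union, Finset.mem_filter]
  by_cases hA : x ∈ A
  · exact Or.inl hA
  · exact Or.inr ⟨hx, hZ.2.2 x hA⟩

lemma zz_symm (hr : 9 * K ≤ r) (hN : NiceG E c r)
    {A : Finset (Fin F)} (hA : A.card ≤ K) {Z1 Z2 : Finset (Sym2 (Fin F))}
    (h1 : ZZ E c r A Z1) (h2 : ZZ E c r A Z2) : ZZ E c r A (symmDiff Z1 Z2) := by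
  refine ⟨?_, ?_, ?_⟩
  · intro e he
    rw [Finset.mem_symmDiff] at he
    rcases he with he | he
    · exact h1.1 e he.1
    · exact h2.1 e he.1
  · have hsub : tch (symmDiff Z1 Z2) ⊆ A ∪ ((tch Z1).filter (fun x => coef c Z1 x = 0) ∪
        (tch Z2).filter (fun x => coef c Z2 x = 0)) := by
      intro x hx
      obtain ⟨y, hy⟩ := mem_tch.mp hx
      rw [Finset.mem_symmDiff] at hy
      rw [Finset.mem_union, Finset.mem_union]
      rcases hy with hy | hy
      · have := tch_card_le h1 (mem_tch.mpr ⟨y, hy.1⟩)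
        rw [Finset.mem_union] at this
        tauto
      · have := tch_card_le h2 (mem_tch.mpr ⟨y, hy.1⟩)
        rw [Finset.mem_union] at this
        tauto
    have hc := Finset.card_le_card hsub
    have hu1 := Finset.card_union_le A ((tch Z1).filter (fun x => coef c Z1 x = 0) ∪
        (tch Z2).filter (fun x => coef c Z2 x = 0))
    have hu2 := Finset.card_union_le ((tch Z1).filter (fun x => coef c Z1 x = 0))
        ((tch Z2).filter (fun x => coef c Z2 x = 0))
    have hv1 := (Finset.card_le_card (tch_card_le h1)).trans (Finset.card_union_le _ _)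
    have hv2 := (Finset.card_le_card (tch_card_le h2)).trans (Finset.card_union_le _ _)
    have hn1 := hN Z1 h1.1 h1.2.1
    have hn2 := hN Z2 h2.1 h2.2.1
    set m1 := ((tch Z1).filter (fun x => coef c Z1 x = 0)).card
    set m2 := ((tch Z2).filter (fun x => coef c Z2 x = 0)).card
    omega
  · intro x hx
    rw [coef_symmDiff, h1.2.2 x hx, h2.2.2 x hx, add_zero]

lemma zz_empty (A : Finset (Fin F)) : ZZ E c r A ∅ := by
  refine ⟨fun e he => absurd he (Finset.notMem_empty _), ?_, fun x _ => coef_empty c x⟩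
  have : tch (∅ : Finset (Sym2 (Fin F))) = ∅ := by
    rw [Finset.eq_empty_iff_forall_notMem]
    intro x hx
    obtain ⟨y, hy⟩ := mem_tch.mp hx
    exact Finset.notMem_empty _ hy
  rw [this, Finset.card_empty]
  exact Nat.zero_le _

/-- linear functional on `Fd d` from a subspace which is a graph -/
lemma exists_functional (P : Submodule (ZMod 2) (Fd d × ZMod 2)) (h : ((0 : Fd d), (1 : ZMod 2)) ∉ P) :
    ∃ w : Fd d, ∀ u l, (u, l) ∈ P → dot u w = l := by
  obtain ⟨ψ, hψ, hP⟩ := Submodule.exists_le_ker_of_notMem h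
  have h1 : ψ (0, 1) = 1 := by
    have : ∀ a : ZMod 2, a ≠ 0 → a = 1 := by decide
    exact this _ hψ
  refine ⟨fun i => ψ (Pi.single i 1, 0), ?_⟩
  intro u l hul
  have h2 : ψ (u, l) = 0 := hP hul
  have h3 : ((u, l) : Fd d × ZMod 2) = (∑ i, u i • ((Pi.single i (1 : ZMod 2) : Fd d), (0 : ZMod 2))) + l • ((0 : Fd d), (1 : ZMod 2)) := by
    apply Prod.ext
    · rw [Prod.fst_add, Prod.fst_sum, Prod.smul_fst]
      funext j
      rw [Pi.add_apply, Finset.sum_apply]
      rw [Finset.sum_eq_single j]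
      · rw [Prod.smul_fst, Pi.smul_apply, Pi.smul_apply]
        simp
      · intro i _ hij
        rw [Prod.smul_fst, Pi.smul_apply]
        change u i • (Pi.single i (1 : ZMod 2) : Fd d) j = 0
        rw [Pi.single_eq_of_ne (Ne.symm hij), smul_zero]
      · intro hj
        exact absurd (Finset.mem_univ j) hj
    · rw [Prod.snd_add, Prod.snd_sum, Prod.smul_snd]
      rw [Finset.sum_eq_zero]
      · simp
      · intro i _
        rw [Prod.smul_snd]
        simp
  rw [h3, map_add, map_sum, map_smul, h1] at h2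
  have h4 : ∑ i, ψ (u i • ((Pi.single i (1 : ZMod 2) : Fd d), (0 : ZMod 2))) =
      dot u (fun i => ψ (Pi.single i 1, 0)) := by
    unfold dot
    apply Finset.sum_congr rfl
    intro i _
    rw [map_smul]
    rfl
  rw [h4] at h2
  have h5 : dot u (fun i => ψ (Pi.single i 1, 0)) = dot u (fun i => ψ (Pi.single i 1, 0)) + (l • (1 : ZMod 2)) + l := by
    rw [smul_eq_mul, mul_one, add_assoc, z2_self, add_zero]
  rw [h5, h2, zero_add]

lemma extend (hr : 9 * K ≤ r) (hN : NiceG E c r)
    {A : Finset (Fin F)} (hA : A.card < K) {t : Fin F → Fd d} (ht : Good E c r b A t)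
    (z : Fin F) (_hz : z ∉ A) :
    ∃ w : Fd d, Good E c r b (insert z A) (Function.update t z w) := by
  have hA' : (insert z A).card ≤ K := (Finset.card_insert_le z A).trans (by omega)
  let L : Finset (Sym2 (Fin F)) → ZMod 2 := fun Z =>
    ∑ e ∈ Z, b e + ∑ x ∈ univ.erase z, dot (coef c Z x) (t x)
  have hL : ∀ Z1 Z2, L (symmDiff Z1 Z2) = L Z1 + L Z2 := by
    intro Z1 Z2
    change ∑ e ∈ symmDiff Z1 Z2, b e + ∑ x ∈ univ.erase z, dot (coef c (symmDiff Z1 Z2) x) (t x) =
      (∑ e ∈ Z1, b e + ∑ x ∈ univ.erase z, dot (coef c Z1 x) (t x)) +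
      (∑ e ∈ Z2, b e + ∑ x ∈ univ.erase z, dot (coef c Z2 x) (t x))
    have h : ∑ x ∈ univ.erase z, dot (coef c (symmDiff Z1 Z2) x) (t x) =
        ∑ x ∈ univ.erase z, dot (coef c Z1 x) (t x) +
        ∑ x ∈ univ.erase z, dot (coef c Z2 x) (t x) := by
      rw [← Finset.sum_add_distrib]
      apply Finset.sum_congr rfl
      intro x _
      rw [coef_symmDiff, dot_add_left]
    rw [bsum_symmDiff, h]
    ring
  have hL0 : L ∅ = 0 := by
    have h := hL ∅ ∅
    rw [symmDiff_self] at h
    have h' : L (⊥ : Finset (Sym2 (Fin F))) = L ∅ + L ∅ := h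
    rw [z2_self] at h'
    exact h'
  have hspl : ∀ (Z : Finset (Sym2 (Fin F))) (t' : Fin F → Fd d),
      ∑ x, dot (coef c Z x) (t' x) =
        dot (coef c Z z) (t' z) + ∑ x ∈ univ.erase z, dot (coef c Z x) (t' x) := by
    intro Z t'
    rw [Finset.add_sum_erase univ (fun x => dot (coef c Z x) (t' x)) (Finset.mem_univ z)]
  let P : Submodule (ZMod 2) (Fd d × ZMod 2) :=
    { carrier := {v | ∃ Z, ZZ E c r (insert z A) Z ∧ v = (coef c Z z, L Z)}
      add_mem' := by
        rintro u v ⟨Z1, h1, rfl⟩ ⟨Z2, h2, rfl⟩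
        refine ⟨symmDiff Z1 Z2, zz_symm hr hN hA' h1 h2, ?_⟩
        rw [coef_symmDiff, hL]
        rfl
      zero_mem' := by
        refine ⟨∅, zz_empty _, ?_⟩
        rw [coef_empty, hL0]
        rfl
      smul_mem' := by
        rintro a v ⟨Z, h, rfl⟩
        have ha : a = 0 ∨ a = 1 := by
          revert a
          decide
        rcases ha with rfl | rfl
        · refine ⟨∅, zz_empty _, ?_⟩
          rw [coef_empty, hL0, zero_smul]
          rfl
        · exact ⟨Z, h, one_smul _ _⟩ }
  have hP : ((0 : Fd d), (1 : ZMod 2)) ∉ P := by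
    rintro ⟨Z, hZ, he⟩
    have h1 : coef c Z z = 0 := (congrArg Prod.fst he).symm
    have h2 : L Z = 1 := (congrArg Prod.snd he).symm
    have h3 : ZZ E c r A Z := by
      refine ⟨hZ.1, hZ.2.1, ?_⟩
      intro x hx
      by_cases hxz : x = z
      · rw [hxz]
        exact h1
      · apply hZ.2.2
        rw [Finset.mem_insert]
        tauto
    have h4 := ht Z h3
    rw [hspl Z t, h1, dot_zero_left, zero_add] at h4
    have h5 : L Z = 0 := by
      change ∑ e ∈ Z, b e + ∑ x ∈ univ.erase z, dot (coef c Z x) (t x) = 0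
      rw [h4, z2_self]
    rw [h5] at h2
    exact absurd h2 (by decide)
  obtain ⟨w, hw⟩ := exists_functional P hP
  refine ⟨w, ?_⟩
  intro Z hZ
  have h1 := hw (coef c Z z) (L Z) ⟨Z, hZ, rfl⟩
  rw [hspl Z (Function.update t z w), Function.update_self, h1]
  have h2 : ∑ x ∈ univ.erase z, dot (coef c Z x) (Function.update t z w x) =
      ∑ x ∈ univ.erase z, dot (coef c Z x) (t x) := by
    apply Finset.sum_congr rfl
    intro x hx
    rw [Function.update_of_ne (Finset.ne_of_mem_erase hx)]
  rw [h2]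
  change (∑ e ∈ Z, b e + ∑ x ∈ univ.erase z, dot (coef c Z x) (t x)) +
    ∑ x ∈ univ.erase z, dot (coef c Z x) (t x) = ∑ e ∈ Z, b e
  rw [add_assoc, z2_self, add_zero]

/-- a single equation -/
lemma good_edge {A : Finset (Fin F)} {t : Fin F → Fd d} (ht : Good E c r b A t) (hr : 2 ≤ r)
    {x y : Fin F} (hx : x ∈ A) (hy : y ∈ A) (hxy : E.Adj x y) :
    dot (c x y) (t x) + dot (c y x) (t y) = b s(x, y) := by
  have hne : x ≠ y := hxy.ne
  have hc : ∀ x', coef c {s(x, y)} x' = if x' = x then c x y else if x' = y then c y x else 0 := by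
    intro x'
    unfold coef
    by_cases h1 : x' = x
    · rw [if_pos h1, Finset.sum_eq_single y]
      · rw [if_pos (by rw [h1]; exact Finset.mem_singleton_self _), h1]
      · intro y' _ hy'
        apply if_neg
        rw [Finset.mem_singleton, h1, Sym2.eq_iff]
        rintro (⟨_, h⟩ | ⟨h, _⟩)
        · exact hy' h
        · exact hne h
      · intro h
        exact absurd (Finset.mem_univ y) h
    · rw [if_neg h1]
      by_cases h2 : x' = y
      · rw [if_pos h2, Finset.sum_eq_single x]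
        · rw [if_pos (by rw [h2, Sym2.eq_swap]; exact Finset.mem_singleton_self _), h2]
        · intro y' _ hy'
          apply if_neg
          rw [Finset.mem_singleton, h2, Sym2.eq_iff]
          rintro (⟨h, _⟩ | ⟨_, h⟩)
          · exact hne h.symm
          · exact hy' h
        · intro h
          exact absurd (Finset.mem_univ x) h
      · rw [if_neg h2]
        apply Finset.sum_eq_zero
        intro y' _
        apply if_neg
        rw [Finset.mem_singleton, Sym2.eq_iff]
        rintro (⟨h, _⟩ | ⟨h, _⟩)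
        · exact h1 h
        · exact h2 h
  have hZ : ZZ E c r A {s(x, y)} := by
    refine ⟨?_, ?_, ?_⟩
    · intro e he
      rw [Finset.mem_singleton] at he
      rw [he, SimpleGraph.mem_edgeSet]
      exact hxy
    · have hsub : tch {s(x, y)} ⊆ ({x, y} : Finset (Fin F)) := by
        intro x' hx'
        obtain ⟨y', hy'⟩ := mem_tch.mp hx'
        rw [Finset.mem_singleton, Sym2.eq_iff] at hy'
        rw [Finset.mem_insert, Finset.mem_singleton]
        rcases hy' with h | h
        · exact Or.inl h.1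
        · exact Or.inr h.1
      exact ((Finset.card_le_card hsub).trans Finset.card_le_two).trans hr
    · intro x' hx'
      rw [hc, if_neg, if_neg]
      · rintro rfl
        exact hx' hy
      · rintro rfl
        exact hx' hx
  have h := ht _ hZ
  rw [Finset.sum_singleton] at h
  rw [← h]
  have h2 : ∑ x', dot (coef c {s(x, y)} x') (t x') = ∑ x' ∈ ({x, y} : Finset (Fin F)),
      dot (coef c {s(x, y)} x') (t x') := by
    symm
    apply Finset.sum_subset (Finset.subset_univ _)
    intro x' _ hx'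
    rw [Finset.mem_insert, Finset.mem_singleton, not_or] at hx'
    rw [hc, if_neg hx'.1, if_neg hx'.2, dot_zero_left]
  rw [h2, Finset.sum_pair hne, hc, hc, if_pos rfl, if_neg hne.symm, if_pos rfl]

end lin

theorem t_GOOD : Pool.Agent.H676.LC.S_GOOD := by
  intro F r K E c hN hK hr b
  have hN' : NiceG E c r := hN
  refine ⟨fun t A => Good E c r b A t, fun t => good_empty hN' t, fun t A B h ht => Good.mono h ht,
    ?_, ?_, ?_⟩
  · intro t t' A h ht Z hZ
    rw [← ht Z hZ]
    apply Finset.sum_congr rfl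
    intro x _
    by_cases hx : x ∈ A
    · rw [h x hx]
    · rw [hZ.2.2 x hx, dot_zero_left, dot_zero_left]
  · intro t A z ht hA
    by_cases hz : z ∈ A
    · refine ⟨t, fun _ _ => rfl, ?_⟩
      rw [Finset.insert_eq_of_mem hz]
      exact ht
    · obtain ⟨w, hw⟩ := extend hK hN' hA ht z hz
      refine ⟨Function.update t z w, fun x hx => ?_, hw⟩
      rw [Function.update_of_ne]
      rintro rfl
      exact hz hx
  · intro t A ht x hx y hy hxy
    exact good_edge ht hr hx hy hxy

end Pool.Agent.H155.LCGOOD
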