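import Pool.Agent.H558.PP.TStm

set_option autoImplicit false

/-!
# Positive proportion of odd values: the levels of the tree of sections
-/

namespace Pool.Agent.H155.PPX

open PowerSeries Finset Pool.Agent.R836.PP Pool.Agent.H558.KK Pool.Agent.H558.PP
open Pool.Agent.K7.H72.MT hiding W few dis DD dis_stable dis_vary DD_stable DD_sum DD_block few_bad
  dis_le DD_le base count

theorem node_mod_both (G : S) (k : ℕ) : ∀ (b t : ℕ) (U : S),
    node G k (b % 2 ^ k) (t % 2 ^ k) U = node G k b t U := by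
  induction k with
  | zero =>
    intro b t U
    rfl
  | succ k ih =>
    intro b t U
    rw [node, node, pow_succ']
    have h1 : t % (2 * 2 ^ k) % 2 = t % 2 := Nat.mod_mul_right_mod _ _ _
    have h2 : t % (2 * 2 ^ k) / 2 = t / 2 % 2 ^ k := Nat.mod_mul_right_div_self _ _ _
    have h3 : b % (2 * 2 ^ k) % 2 = b % 2 := Nat.mod_mul_right_mod _ _ _
    have h4 : b % (2 * 2 ^ k) / 2 = b / 2 % 2 ^ k := Nat.mod_mul_right_div_self _ _ _
    rw [h1, h2, h3, h4, ih]

theorem node_add (G : S) (k k' : ℕ) : ∀ (b t : ℕ) (U : S),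
    node G (k + k') b t U = node G k' (b / 2 ^ k) (t / 2 ^ k) (node G k b t U) := by
  induction k with
  | zero =>
    intro b t U
    rw [zero_add, pow_zero, Nat.div_one, Nat.div_one]
    rfl
  | succ k ih =>
    intro b t U
    rw [show k + 1 + k' = (k + k') + 1 by ring, node, ih, node, Nat.div_div_eq_div_mul,
      Nat.div_div_eq_div_mul, pow_succ']

theorem n1 : S_N1 := by
  intro G k k' b t U
  exact ⟨by rw [node_mod_both, node_add], node_mod_both G k b t U⟩

theorem n3 : S_N3 := by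
  intro k b t x U h
  by_contra hU
  have h0 : ∀ i < 2 ^ k * x, coeff i U = 0 := by
    intro i hi
    by_contra hne
    exact hU ⟨i, hi, hne⟩
  obtain ⟨i, hi, hne⟩ := h
  apply hne
  have hp : 0 < 2 ^ k := by positivity
  rw [← node_mod_both]
  have h1 := coeff_node P2 k (b % 2 ^ k) (t % 2 ^ k) i U (Nat.mod_lt _ hp)
  rw [Nat.div_eq_of_lt (Nat.mod_lt _ hp), pow_zero, mul_one] at h1
  rw [← h1]
  apply coeff_lt h0
  have h2 := Nat.mod_lt b hp
  calc b % 2 ^ k + 2 ^ k * i < 2 ^ k + 2 ^ k * i := by omega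
    _ = 2 ^ k * (i + 1) := by ring
    _ ≤ 2 ^ k * x := Nat.mul_le_mul_left _ hi

theorem xx_trans : S_X := by
  classical
  intro k T m T' n T'' U hnm hmk
  have hpm : 0 < 2 ^ m := by positivity
  set C : Finset (ℕ × ℕ) := {p ∈ range (2 ^ k) ×ˢ range (2 ^ k) |
    ¬ Gv T' (node P2 m (p.2 % 2 ^ m) (p.1 % 2 ^ m) U) ∧
      Gv T'' (node P2 n (p.2 % 2 ^ n) (p.1 % 2 ^ n) U)} with hC
  have h1 : XX k T n T'' U ≤ XX k T m T' U + #C := by
    unfold XX
    refine le_trans (card_le_card ?_) (card_union_le _ _)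
    intro p hp
    obtain ⟨h2, h3, h4⟩ := mem_filter.1 hp
    rw [mem_union]
    by_cases h5 : Gv T' (node P2 m (p.2 % 2 ^ m) (p.1 % 2 ^ m) U)
    · left
      exact mem_filter.2 ⟨h2, h3, h5⟩
    · right
      exact mem_filter.2 ⟨h2, h5, h4⟩
  have h2 : #C ≤ 4 ^ (k - m) * XX m T' n T'' U := by
    have h3 : (4 : ℕ) ^ (k - m) = #(range (2 ^ (k - m)) ×ˢ range (2 ^ (k - m))) := by
      rw [card_product, card_range, ← mul_pow, show 2 * 2 = 4 from rfl]
    rw [h3]
    unfold XX
    rw [← card_product]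
    refine card_le_card_of_injOn (fun p => ((p.1 / 2 ^ m, p.2 / 2 ^ m), (p.1 % 2 ^ m, p.2 % 2 ^ m)))
      ?_ ?_
    · intro p hp
      obtain ⟨h4, h5, h6⟩ := mem_filter.1 hp
      rw [mem_product, mem_range, mem_range] at h4
      have h7 : 2 ^ k = 2 ^ m * 2 ^ (k - m) := by
        rw [← pow_add]
        congr 1
        omega
      rw [h7] at h4
      have hd : 2 ^ n ∣ 2 ^ m := pow_dvd_pow 2 hnm
      refine mem_product.2 ⟨?_, mem_filter.2 ⟨?_, h5, ?_⟩⟩
      · rw [mem_product, mem_range, mem_range]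
        exact ⟨Nat.div_lt_of_lt_mul h4.1, Nat.div_lt_of_lt_mul h4.2⟩
      · rw [mem_product, mem_range, mem_range]
        exact ⟨Nat.mod_lt _ hpm, Nat.mod_lt _ hpm⟩
      · simp only
        rw [Nat.mod_mod_of_dvd _ hd, Nat.mod_mod_of_dvd _ hd]
        exact h6
    · intro p _ q _ he
      simp only [Prod.mk.injEq] at he
      obtain ⟨⟨h4, h5⟩, h6, h7⟩ := he
      ext
      · rw [← Nat.div_add_mod p.1 (2 ^ m), h4, h6, Nat.div_add_mod]
      · rw [← Nat.div_add_mod p.2 (2 ^ m), h5, h7, Nat.div_add_mod]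
  exact h1.trans (Nat.add_le_add_left h2 _)

end Pool.Agent.H155.PPX
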