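import Pool.Agent.H666.TK.SpecC

/-!
# Product weights on `Fin K → Fin R`
-/

set_option autoImplicit false

open Finset

namespace Pool.Agent.H155.TK

open Pool.Agent.H666.TK

theorem sum_prod {K R : ℕ} (h : Fin K → Fin R → ℝ) :
    ∑ u : Fin K → Fin R, ∏ j, h j (u j) = ∏ j, ∑ r, h j r := by
  rw [Finset.prod_univ_sum, Fintype.piFinset_univ]

theorem prod_set {K R : ℕ} (g : Fin K → Fin R → ℝ) (hg : ∀ j, ∑ r, g j r = R)
    (S : Finset (Fin K)) (w : Fin K → Fin R → ℝ) :
    (R : ℝ) ^ S.card * ∑ u : Fin K → Fin R, (∏ j, g j (u j)) * ∏ j ∈ S, w j (u j) =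
      (R : ℝ) ^ K * ∏ j ∈ S, ∑ r, g j r * w j r := by
  have h1 : ∀ u : Fin K → Fin R, (∏ j, g j (u j)) * ∏ j ∈ S, w j (u j) =
      ∏ j, (g j (u j) * if j ∈ S then w j (u j) else 1) := by
    intro u
    rw [Finset.prod_mul_distrib, Finset.prod_ite_mem, Finset.univ_inter]
  have h2 : ∀ j, ∑ r, (g j r * if j ∈ S then w j r else 1) =
      if j ∈ S then ∑ r, g j r * w j r else (R : ℝ) := by
    intro j
    by_cases hj : j ∈ S
    · simp only [if_pos hj]
    · simp only [if_neg hj, mul_one]
      exact hg j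
  rw [Finset.sum_congr rfl fun u _ => h1 u,
    sum_prod fun j r => g j r * if j ∈ S then w j r else 1, Finset.prod_congr rfl fun j _ => h2 j,
    Finset.prod_ite, Finset.prod_const, Finset.filter_mem_eq_inter, Finset.univ_inter]
  have h3 : S.card + (univ.filter fun j => j ∉ S).card = K := by
    have e1 := Finset.card_filter_add_card_filter_not (s := (univ : Finset (Fin K)))
      (fun j => j ∈ S)
    rw [Finset.filter_mem_eq_inter, Finset.univ_inter, Finset.card_univ, Fintype.card_fin] at e1
    exact e1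
  calc (R : ℝ) ^ S.card * ((∏ j ∈ S, ∑ r, g j r * w j r) *
        (R : ℝ) ^ (univ.filter fun j => j ∉ S).card)
      = (R : ℝ) ^ (S.card + (univ.filter fun j => j ∉ S).card) *
        ∏ j ∈ S, ∑ r, g j r * w j r := by
        rw [pow_add]; ring
    _ = _ := by rw [h3]

theorem prod1 : S_prod1 := by
  intro K R g hg i φ
  have h := prod_set g hg {i} fun _ r => φ r
  simpa only [Finset.card_singleton, pow_one, Finset.prod_singleton] using h

/-- the factors for fixed `t` -/
noncomputable def ww {K R : ℕ} (i : Fin K) (φ : Fin R → ℝ) (t : Fin R) (j : Fin K) (r : Fin R) : ℝ :=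
  if j = i then (if r = t then φ r else 0) else (if r < t then 1 else 0)

theorem ww_self {K R : ℕ} (i : Fin K) (φ : Fin R → ℝ) (t r : Fin R) :
    ww i φ t i r = if r = t then φ r else 0 := by
  simp [ww]

theorem ww_ne {K R : ℕ} {i a : Fin K} (h : i ≠ a) (φ : Fin R → ℝ) (t r : Fin R) :
    ww i φ t a r = if r < t then 1 else 0 := by
  simp [ww, h.symm]

theorem prod3 : S_prod3 := by
  intro K R g hg i a b hia hib hab φ
  have hS : ∀ f : Fin K → ℝ, ∏ j ∈ ({i, a, b} : Finset (Fin K)), f j = f i * (f a * f b) := by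
    intro f
    rw [Finset.prod_insert, Finset.prod_insert, Finset.prod_singleton]
    · simpa using hab
    · simp [hia, hib]
  have hcard : ({i, a, b} : Finset (Fin K)).card = 3 := by
    rw [Finset.card_insert_of_notMem, Finset.card_insert_of_notMem, Finset.card_singleton]
    · simpa using hab
    · simp [hia, hib]
  have h1 : ∀ u : Fin K → Fin R, (if u a < u i ∧ u b < u i then φ (u i) else 0) =
      ∑ t, ∏ j ∈ ({i, a, b} : Finset (Fin K)), ww i φ t j (u j) := by
    intro u
    have h2 : ∀ t, ∏ j ∈ ({i, a, b} : Finset (Fin K)), ww i φ t j (u j) =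
        if u i = t then (if u a < u i ∧ u b < u i then φ (u i) else 0) else 0 := by
      intro t
      rw [hS, ww_self, ww_ne hia, ww_ne hib]
      by_cases ht : u i = t
      · rw [if_pos ht, if_pos ht, ← ht]
        by_cases ha : u a < u i
        · by_cases hb : u b < u i
          · rw [if_pos ha, if_pos hb, if_pos ⟨ha, hb⟩, mul_one, mul_one]
          · rw [if_neg hb, if_neg (show ¬ (u a < u i ∧ u b < u i) from fun h => hb h.2), mul_zero,
              mul_zero]
        · rw [if_neg ha, if_neg (show ¬ (u a < u i ∧ u b < u i) from fun h => ha h.1), zero_mul,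
            mul_zero]
      · rw [if_neg ht, if_neg ht, zero_mul]
    rw [Finset.sum_congr rfl fun t _ => h2 t, Finset.sum_ite_eq, if_pos (Finset.mem_univ _)]
  have h3 : ∀ t : Fin R, (R : ℝ) ^ 3 * ∑ u : Fin K → Fin R, (∏ j, g j (u j)) *
      ∏ j ∈ ({i, a, b} : Finset (Fin K)), ww i φ t j (u j) =
      (R : ℝ) ^ K * (g i t * φ t * (∑ r' ∈ univ.filter (fun r' => r' < t), g a r') *
        (∑ r' ∈ univ.filter (fun r' => r' < t), g b r')) := by
    intro t
    have h := prod_set g hg {i, a, b} (ww i φ t)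
    rw [hcard] at h
    rw [h, hS]
    have e1 : ∑ r, g i r * ww i φ t i r = g i t * φ t := by
      simp only [ww_self, mul_ite, mul_zero]
      rw [Finset.sum_ite_eq', if_pos (Finset.mem_univ _)]
    have e2 : ∀ c, i ≠ c → ∑ r, g c r * ww i φ t c r =
        ∑ r' ∈ univ.filter (fun r' => r' < t), g c r' := by
      intro c hc
      simp only [ww_ne hc, mul_ite, mul_zero, mul_one]
      rw [Finset.sum_filter]
    rw [e1, e2 a hia, e2 b hib]
    ring
  calc (R : ℝ) ^ 3 * ∑ u : Fin K → Fin R, (∏ j, g j (u j)) *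
        (if u a < u i ∧ u b < u i then φ (u i) else 0)
      = (R : ℝ) ^ 3 * ∑ u : Fin K → Fin R, ∑ t, (∏ j, g j (u j)) *
        ∏ j ∈ ({i, a, b} : Finset (Fin K)), ww i φ t j (u j) := by
        congr 1
        refine Finset.sum_congr rfl fun u _ => ?_
        rw [h1, Finset.mul_sum]
    _ = ∑ t, (R : ℝ) ^ 3 * ∑ u : Fin K → Fin R, (∏ j, g j (u j)) *
        ∏ j ∈ ({i, a, b} : Finset (Fin K)), ww i φ t j (u j) := by
        rw [Finset.sum_comm, Finset.mul_sum]
    _ = _ := by
        rw [Finset.sum_congr rfl fun t _ => h3 t, Finset.mul_sum]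

end Pool.Agent.H155.TK
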